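import Mathlib
import Pool.Agent.Helper137.Ex
import Pool.Agent.K1H22.Div.Rec2

set_option autoImplicit false

namespace Pool.Agent.Results.MP_a0e17f_co.LinearRange

open Module

/-- `S` is `k`-independent: every subset with at most `k + 1` points is affinely independent. -/
def KIndependent {d : ℕ} (k : ℕ) (S : Finset (EuclideanSpace ℝ (Fin d))) : Prop :=
  ∀ T : Finset (EuclideanSpace ℝ (Fin d)), T ⊆ S → T.card ≤ k + 1 →
    AffineIndependent ℝ (fun x : T => (x : EuclideanSpace ℝ (Fin d)))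

/-- `S` is `(2,k)`-divisible: it splits into two disjoint parts whose convex hulls meet in a
(nonempty) set whose affine hull has dimension at least `k`. -/
def TwoDivisible {d : ℕ} (k : ℕ) (S : Finset (EuclideanSpace ℝ (Fin d))) : Prop :=
  ∃ A B : Finset (EuclideanSpace ℝ (Fin d)), A ∪ B = S ∧ Disjoint A B ∧
    (convexHull ℝ (A : Set (EuclideanSpace ℝ (Fin d))) ∩
      convexHull ℝ (B : Set (EuclideanSpace ℝ (Fin d)))).Nonempty ∧
    k ≤ finrank ℝ (vectorSpan ℝ (convexHull ℝ (A : Set (EuclideanSpace ℝ (Fin d))) ∩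
      convexHull ℝ (B : Set (EuclideanSpace ℝ (Fin d)))))

/-- The set of all `n` such that every `k`-independent set of at least `n` points in `ℝ^d` is
`(2,k)`-divisible. -/
def Good (k d : ℕ) : Set ℕ :=
  {n | ∀ S : Finset (EuclideanSpace ℝ (Fin d)), KIndependent k S → n ≤ S.card → TwoDivisible k S}

/-- `N(k,d)` is the least member of `Good k d`. -/
noncomputable def N (k d : ℕ) : ℕ := sInf (Good k d)

lemma kind_iff {d k : ℕ} (S : Finset (EuclideanSpace ℝ (Fin d))) :
    KIndependent k S ↔ Pool.Agent.Helper137.Rec.KIndep k S := by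
  unfold KIndependent Pool.Agent.Helper137.Rec.KIndep
  exact Iff.rfl

lemma div_iff {d k : ℕ} (S : Finset (EuclideanSpace ℝ (Fin d))) :
    TwoDivisible k S ↔ Pool.Agent.Helper137.Dep.Div2 k S := by
  classical
  unfold TwoDivisible Pool.Agent.Helper137.Dep.Div2
  constructor
  · rintro ⟨A, B, h1, h2⟩
    refine ⟨A, B, ?_, h2⟩
    rw [← h1]
  · rintro ⟨A, B, h1, h2⟩
    refine ⟨A, B, ?_, h2⟩
    rw [← h1]

theorem good_upper (k d : ℕ) (hk : 2 ≤ k) (hkd : k + 1 ≤ d) :
    max (2 * d + 2 - (k - 1) / 2) (d + k + 2) ∈ Good k d := by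
  classical
  intro S hS hc
  rw [div_iff]
  rw [kind_iff] at hS
  exact Pool.Agent.K1H22.Div.upperE d k hk hkd (by rw [finrank_euclideanSpace_fin]) S hS hc

theorem good_lower (k d n : ℕ) (hk : 2 ≤ k) (hkd : k + 1 ≤ d) (hn : n ∈ Good k d) :
    2 * d + 3 - k ≤ n ∧ d + k + 2 ≤ n := by
  classical
  constructor
  · by_contra hlt
    have hS := Pool.Agent.Helper137.Ex.P1_indep k d hk (by omega)
    have hD := Pool.Agent.Helper137.Ex.P1_not_div k d hk (by omega)
    have hcard : ((Pool.Agent.Helper137.Ex.I1 k d).image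
        (Pool.Agent.Helper137.Ex.P1 k d)).card = 2 * d + 2 - k := by
      rw [Finset.card_image_of_injOn (Pool.Agent.Helper137.Ex.P1_inj k d hk (by omega))]
      exact Pool.Agent.Helper137.Ex.card_I1 k d (by omega)
    exact hD ((div_iff _).mp (hn _ ((kind_iff _).mpr hS) (by omega)))
  · by_contra hlt
    have hS := Pool.Agent.Helper137.Ex.P2_indep d (d + k + 1) (by omega)
    have hcard : ((Finset.range (d + k + 1)).image
        (Pool.Agent.Helper137.Ex.P2 d)).card = d + k + 1 := by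
      rw [Finset.card_image_of_injOn (Pool.Agent.Helper137.Ex.P2_inj d (d + k + 1) (by omega)),
        Finset.card_range]
    have hD := Pool.Agent.Helper137.Ex.gp_not_div d k (by omega) _ hS hcard
    refine hD ((div_iff _).mp (hn _ ((kind_iff _).mpr ?_) (by omega)))
    intro T hT hc
    exact hS T hT (by omega)

/-- For `2 ≤ k ≤ d - 1`, the threshold `N(k,d)` exists and
`max (2d+3-k) (d+k+2) ≤ N(k,d) ≤ max (2d+2-⌊(k-1)/2⌋) (d+k+2)`.
The two bounds coincide, so that `N(k,d) = d+k+2`, whenever `2d+1 ≤ 3k`. -/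
theorem result (k d : ℕ) (hk : 2 ≤ k) (hkd : k + 1 ≤ d) :
    IsLeast (Good k d) (N k d) ∧
    max (2 * d + 3 - k) (d + k + 2) ≤ N k d ∧
    N k d ≤ max (2 * d + 2 - (k - 1) / 2) (d + k + 2) ∧
    (2 * d + 1 ≤ 3 * k → N k d = d + k + 2) := by
  have hne : (Good k d).Nonempty := ⟨_, good_upper k d hk hkd⟩
  have hmem : N k d ∈ Good k d := Nat.sInf_mem hne
  have hlow := good_lower k d _ hk hkd hmem
  have hup : N k d ≤ max (2 * d + 2 - (k - 1) / 2) (d + k + 2) :=
    Nat.sInf_le (good_upper k d hk hkd)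
  refine ⟨⟨hmem, fun n hn => Nat.sInf_le hn⟩, max_le hlow.1 hlow.2, hup, ?_⟩
  intro h3
  omega

end Pool.Agent.Results.MP_a0e17f_co.LinearRange
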